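import Pool.Agent.U34.BW.AllSets

/-!
# Equidistribution of all eigenfunctions on all measurable sets, and their Gaussian values, after
arbitrarily small perturbations (MP_ed6ab2_an)

Let `(X, μ)` be a probability space with a countably generated σ-algebra, let the real functions
`φ i` be orthonormal in `L²(μ)`, and let `0 ≤ om 0 ≤ om 1 ≤ ...`, with Weyl's law
`om n ^ d = κ n + O(n ^ θ)` and, for almost every `x`, the local Weyl law
`∑_{i < n} φ i x ^ 2 = n + O(n ^ θ)`, `0 ≤ θ < 1` (`WeylSystem μ φ (om ^ d) θ`). For a compact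
Riemannian manifold of dimension `d ≥ 2` with the normalised volume `μ`, the eigenfunctions `φ i` and
the eigenvalues `om i ^ 2` of the nonnegative Laplacian, both laws are known with `θ = 1 - 1/d`
(Avakumović, Levitan, Hörmander); the geodesic flow may be ergodic or not.

Let `D φ i = om i ^ 2 φ i`. For every `ε > 0` and `σ > 1 - d (1 - θ) / 2` (manifolds: `σ > 1/2`) there is
a symmetric operator `k` with `‖k a‖ ≤ ε ‖(1 + D) ^ σ a‖` such that `D + k` has a simple spectrum
`lam' 0 < lam' 1 < ...`, `|lam' j - om j ^ 2| ≤ ε`, and an orthonormal basis of eigenfunctions `v j`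
(real, finite combinations of the `φ i`, unique up to the signs), with the following properties for
ALL measurable sets `A` (Q1 asks for the first one, for open sets whose boundary has measure `0`),
along the full sequence:

* `∫_A v j ^ 2 dμ → μ A`;
* `∫_A g (± v j) dμ → μ A ∫ g dN(0, 1)` for all bounded continuous `g`: on every part of the space
  the values of `v j` become Gaussian.

Proof: see `MP_a52643_an.SmallPerturbations` for the Gaussian law. The truncated squares
`g = min (t ^ 2) (R ^ 2)` give `liminf ∫_A v j ^ 2 ≥ μ A` for `A` and its complement, and the total mass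
is one.
-/

set_option autoImplicit false

open MeasureTheory Filter Topology ProbabilityTheory
open scoped BoundedContinuousFunction
open Pool.Agent.U34.BW

namespace Pool.Agent.Results.MP_ed6ab2_an.AllMeasurableSets

/-- **Equidistribution on all measurable sets after arbitrarily small perturbations.** -/
theorem result (X : Type) [MeasurableSpace X] [MeasurableSpace.CountablyGenerated X]
    (μ : Measure X) [IsProbabilityMeasure μ] (φ : ℕ → X → ℝ) (om : ℕ → ℝ) (d : ℕ) (hd : 2 ≤ d)
    (θ : ℝ) (hθ0 : 0 ≤ θ) (hθ1 : θ < 1) (hmono : Monotone om) (h0 : 0 ≤ om 0)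
    (h : WeylSystem μ φ (fun i => om i ^ d) θ)
    (σ ε : ℝ) (hσ0 : 0 ≤ σ) (hσ : 1 - d * (1 - θ) / 2 < σ) (hε : 0 < ε) :
    ∃ (k u : ℕ → ℕ → ℝ) (I : ℕ → Finset ℕ) (lam' : ℕ → ℝ),
      Perturb (fun i => om i ^ 2) ε σ k u I lam' ∧
      (∀ A : Set X, MeasurableSet A →
        Tendsto (fun j => ∫ x in A, (∑ i ∈ I j, u j i * φ i x) ^ 2 ∂μ) atTop (𝓝 (μ.real A))) ∧
      ∀ e : ℕ → ℝ, (∀ j, e j = 1 ∨ e j = -1) → ∀ A : Set X, MeasurableSet A → ∀ g : ℝ →ᵇ ℝ,
        Tendsto (fun j => ∫ x in A, g (e j * ∑ i ∈ I j, u j i * φ i x) ∂μ) atTop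
          (𝓝 (μ.real A * ∫ y, g y ∂(gaussianReal 0 1))) :=
  value_mass hd hθ0 hθ1 hσ0 hσ hε hmono h0 h

end Pool.Agent.Results.MP_ed6ab2_an.AllMeasurableSets
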