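import Pool.Agent.U34.BW.Equi

/-!
# Equidistribution of all eigenfunctions, also on shrinking sets, after arbitrarily small
perturbations (MP_ed6ab2_an)

Let `(X, μ)` be a second countable topological space with a probability measure, let the real
functions `φ i` be orthonormal in `L²(μ)`, and let `0 ≤ om 0 ≤ om 1 ≤ ...`, with Weyl's law
`om n ^ d = κ n + O(n ^ θ)` and the uniform local Weyl law `∑_{i < n} φ i x ^ 2 = n + O(n ^ θ)`,
`0 < θ < 1`. For a compact Riemannian manifold of dimension `d ≥ 2` with the normalised volume `μ`,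
the eigenfunctions `φ i` and the eigenvalues `om i ^ 2` of the nonnegative Laplacian, both laws are
known with `θ = 1 - 1/d` (Avakumović, Levitan, Hörmander); the geodesic flow may be ergodic or not.

Let `D φ i = om i ^ 2 φ i`. For every `ε > 0` and `σ > 1 - d (1 - θ) / 2` (manifolds: `σ > 1/2`), and
for given finite families `E j q`, `q < M j`, of measurable sets, which may shrink and whose number
may grow with `j` as long as `∑ q < M j, μ (E j q) ^ (-4) = O(j ^ θ)`, there is a symmetric operator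
`k` with `‖k a‖ ≤ ε ‖(1 + D) ^ σ a‖` such that `D + k` has a simple spectrum
`lam' 0 < lam' 1 < ...`, `|lam' j - om j ^ 2| ≤ ε`, and an orthonormal basis of eigenfunctions `v j`
(real, finite combinations of the `φ i`, unique up to the signs) with:

* all eigenfunctions are equidistributed, in the sense of the problem: `∫_D v j ^ 2 dμ → μ D` for
  every open set `D` whose boundary has measure `0`, along the full sequence;
* they are equidistributed on the given small sets, uniformly:
  `∫_{E j q} v j ^ 2 dμ = (1 + o(1)) μ (E j q)` for `q < M j`.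

For instance, on a manifold of dimension `d` the `E j q` may be the balls of radius `j ^ (-γ)` around
the points of a `j ^ (-γ)`-net, as long as `5 d γ ≤ 1 - 1/d`.

Proof: blocks of `N = 2 ^ m ≈ b ^ θ'` consecutive functions, `θ < θ'`, are mixed by a Hadamard matrix
and signs. For a set `E` the mass `∫_E v j ^ 2` has the mean `∑ ∫_E φ i ^ 2 / N` with respect to the
signs, and its discrete gradient has the square at most `64 / N`, by Bessel's inequality. The
fourth moments then give signs which are good for all `j` in the block and all sets `E j q`.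
-/

set_option autoImplicit false

open MeasureTheory Filter Topology
open Pool.Agent.U34.BW

namespace Pool.Agent.Results.MP_ed6ab2_an.SmallPerturbations

/-- **Equidistribution of all eigenfunctions after arbitrarily small perturbations.** -/
theorem result (X : Type) [MeasurableSpace X] [TopologicalSpace X] [SecondCountableTopology X]
    [OpensMeasurableSpace X] (μ : Measure X) [IsProbabilityMeasure μ] (φ : ℕ → X → ℝ)
    (om : ℕ → ℝ) (d : ℕ) (hd : 2 ≤ d) (θ : ℝ) (hθ0 : 0 < θ) (hθ1 : θ < 1) (h : ONF μ φ)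
    (hmono : Monotone om) (h0 : 0 ≤ om 0)
    (hweyl : ∃ κ C : ℝ, 0 < κ ∧ ∀ n : ℕ, |om n ^ d - κ * n| ≤ C * ((n : ℝ) + 1) ^ θ)
    (hlaw : ∃ C : ℝ, ∀ᵐ x ∂μ, ∀ n : ℕ,
      |∑ i ∈ Finset.range n, φ i x ^ 2 - n| ≤ C * ((n : ℝ) + 1) ^ θ)
    (σ ε : ℝ) (hσ0 : 0 ≤ σ) (hσ : 1 - d * (1 - θ) / 2 < σ) (hε : 0 < ε)
    (E : ℕ → ℕ → Set X) (M : ℕ → ℕ) (hE : ∀ j q, MeasurableSet (E j q))
    (hE0 : ∀ j q, q < M j → μ (E j q) ≠ 0)
    (hsum : ∃ C : ℝ, ∀ j, ∑ q ∈ Finset.range (M j), (1 / μ.real (E j q)) ^ 4 ≤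
      C * ((j : ℝ) + 1) ^ θ) :
    ∃ (k u : ℕ → ℕ → ℝ) (I : ℕ → Finset ℕ) (lam' : ℕ → ℝ),
      Perturb (fun i => om i ^ 2) ε σ k u I lam' ∧
      (∀ D : Set X, IsOpen D → μ (frontier D) = 0 →
        Tendsto (fun j => ∫ x in D, (∑ i ∈ I j, u j i * φ i x) ^ 2 ∂μ) atTop (𝓝 (μ.real D))) ∧
      ∀ δ : ℝ, 0 < δ → ∀ᶠ j in atTop, ∀ q < M j,
        |∫ x in E j q, (∑ i ∈ I j, u j i * φ i x) ^ 2 ∂μ - μ.real (E j q)| ≤
          δ * μ.real (E j q) :=
  equi hd hθ0 hθ1 hσ0 hσ hε h hmono h0 hweyl hlaw E M hE hE0 hsum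

end Pool.Agent.Results.MP_ed6ab2_an.SmallPerturbations
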